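import Pool.Agent.Helper30_SkewP4.Stmts

/-!
# GG: closure properties of `InG`
-/

set_option autoImplicit false

open scoped TensorProduct

namespace Pool.Agent.SkewP4.H15

theorem gg_sS_rho : sLam rhoL = rhoL := by
  simp [sLam, sS, rhoL]

theorem gg_rho_mul (f : L) (w : E) : rhoL * (f ⊗ₜ[ℂ] w) = (algebraMap R L rhoR * f) ⊗ₜ[ℂ] w := by
  rw [rhoL, Algebra.TensorProduct.tmul_mul_tmul, one_mul]

theorem gg_iLam_rho (a : Lam) : iLam (rhoL * a) = rhoL * iLam a := by
  induction a using TensorProduct.induction_on with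
  | zero => simp
  | add x y hx hy => rw [mul_add, map_add, hx, hy, map_add, mul_add]
  | tmul f w =>
    rw [gg_rho_mul]
    simp only [iLam, opPhi, LinearMap.sum_apply, TensorProduct.map_tmul, LinearMap.mulLeft_apply]
    rw [Finset.mul_sum]
    refine Finset.sum_congr rfl fun j _ => ?_
    rw [gg_rho_mul, mul_left_comm]

theorem gg_iLam_rho_pow (k : ℕ) (a : Lam) : iLam (rhoL ^ k * a) = rhoL ^ k * iLam a := by
  induction k with
  | zero => simp
  | succ k ih => rw [pow_succ', mul_assoc, gg_iLam_rho, ih, mul_assoc]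

theorem gg_cancel (jt : JtStmt) (k : ℕ) (a : Lam) (h : rhoL ^ k * a = 0) : a = 0 := by
  induction k with
  | zero => simpa using h
  | succ k ih =>
    rw [pow_succ', mul_assoc] at h
    exact ih (jt.rho_cancel _ h)

theorem gg_jT_rho_pow (jt : JtStmt) (l : ℕ) (g : T) : rhoL ^ l * jT g = jT ((opRho ^ l) g) := by
  induction l with
  | zero => simp
  | succ l ih =>
    rw [pow_succ', mul_assoc, ih, jt.rho, pow_succ']
    rfl

theorem gg_rho_pow_mem (tm : TmulStmt) (p q k l : ℕ) (g : T) (hg : g ∈ TK p q k) :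
    (opRho ^ l) g ∈ TK p q (k + l) := by
  induction l with
  | zero => simpa using hg
  | succ l ih =>
    rw [pow_succ']
    exact tm.rho_mem p q (k + l) _ ih

theorem gg_pow_comm (jt : JtStmt) (k : ℕ) (a : Lam) : rhoL ^ k * a = a * rhoL ^ k := by
  have h : Commute rhoL a := jt.rho_comm a
  exact (h.pow_left k).eq

theorem gg_d (jt : JtStmt) (pd : Fin 5 → (L →ₗ[ℂ] L)) (hpd : PdProp pd) (k : ℕ) (g : T) (a : Lam)
    (h : rhoL ^ k * a = jT g) :
    rhoL ^ (k + 1) * dLam pd a = jT (opRho (opD g) - (k : ℂ) • opE g) := by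
  have hd : dLam pd (rhoL ^ k * a) = jT (opD g) := by rw [h, jt.d pd hpd]
  rw [map_sub, map_smul, ← jt.rho, ← hd, ← jt.e_mul, ← h]
  cases k with
  | zero => simp
  | succ k =>
    rw [jt.d_rho pd hpd k a]
    set e : Lam := jT (opE ((1 : R) ⊗ₜ[ℂ] (1 : E))) with he
    have e1 : rhoL * (((k : ℂ) + 1) • (rhoL ^ k * (e * a)))
        = ((k + 1 : ℕ) : ℂ) • (e * (rhoL ^ (k + 1) * a)) := by
      rw [mul_smul_comm, ← mul_assoc, ← pow_succ', ← mul_assoc, ← mul_assoc,
        gg_pow_comm jt (k + 1) e]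
      push_cast
      rfl
    rw [mul_add, e1, ← mul_assoc, ← pow_succ']
    abel

/-- GG. -/
theorem gg (jt : JtStmt) (tm : TmulStmt) (opb : OpbStmt) : GgStmt where
  zero := fun p q => ⟨0, 0, Submodule.zero_mem _, by simp⟩
  add := by
    rintro p q a b ⟨k, g, hg, hk⟩ ⟨l, g', hg', hl⟩
    refine ⟨k + l, (opRho ^ l) g + (opRho ^ k) g',
      Submodule.add_mem _ (gg_rho_pow_mem tm p q k l g hg) ?_, ?_⟩
    · have := gg_rho_pow_mem tm p q l k g' hg'
      rwa [add_comm] at this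
    · rw [map_add, ← gg_jT_rho_pow jt, ← gg_jT_rho_pow jt, ← hk, ← hl, mul_add, ← mul_assoc,
        ← mul_assoc, ← pow_add, ← pow_add, add_comm l k]
  smul := by
    rintro p q c a ⟨k, g, hg, hk⟩
    exact ⟨k, c • g, Submodule.smul_mem _ _ hg, by rw [map_smul, ← hk, mul_smul_comm]⟩
  one := ⟨0, 1, tm.one_mem, by simp⟩
  mul := by
    rintro p q p' q' a b ⟨k, g, hg, hk⟩ ⟨l, g', hg', hl⟩
    refine ⟨k + l, g * g', tm.mul_mem _ _ _ _ _ _ _ _ hg hg', ?_⟩
    rw [map_mul, ← hk, ← hl, pow_add, mul_assoc, ← mul_assoc (rhoL ^ l) a b, gg_pow_comm jt l a,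
      mul_assoc, mul_assoc]
  s := by
    rintro p q a ⟨k, g, hg, hk⟩
    have h1 : sLam (rhoL ^ k * a) = rhoL ^ k * sLam a := by
      rw [map_mul, map_pow, gg_sS_rho]
    have h2 : rhoL ^ k * (sLam a - (-1 : ℂ) ^ (p + q) • a) = 0 := by
      rw [mul_sub, ← h1, mul_smul_comm, hk, jt.s, tm.s_mem p q k g hg, map_smul, sub_self]
    exact sub_eq_zero.mp (gg_cancel jt k _ h2)
  d := by
    rintro pd hpd p q a ⟨k, g, hg, hk⟩
    exact ⟨k + 1, _, tm.D_mem p q k g hg, gg_d jt pd hpd k g a hk⟩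
  i := by
    rintro p q a ⟨k, g, hg, hk⟩
    exact ⟨k, opI g, tm.I_mem p q k g hg, by rw [← gg_iLam_rho_pow, hk, jt.i]⟩
  i0 := by
    rintro q a ⟨k, g, hg, hk⟩
    refine gg_cancel jt k _ ?_
    rw [← gg_iLam_rho_pow, hk, jt.i, opb.I_zero q g hg.1.1, map_zero]

end Pool.Agent.SkewP4.H15
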