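import Pool.Agent.Helper30_SkewP4.Stmts

/-!
# LSUP: the super structure on `L ⊗ E`
-/

set_option autoImplicit false

open scoped TensorProduct

namespace Pool.Agent.SkewP4.H15

section
variable {C : Type} [CommRing C] [Algebra ℂ C]

theorem opPsi_tmul (f : Fin 5 → (C →ₗ[ℂ] C)) (c : Fin 5 → Ix) (a : C) (w : E) :
    opPsi f c (a ⊗ₜ[ℂ] w) = ∑ j : Fin 5, (f j a) ⊗ₜ[ℂ] (psi (c j) w) := by
  simp [opPsi, LinearMap.sum_apply]

theorem opPhi_tmul (f : Fin 5 → (C →ₗ[ℂ] C)) (c : Fin 5 → Ix) (a : C) (w : E) :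
    opPhi f c (a ⊗ₜ[ℂ] w) = ∑ j : Fin 5, (f j a) ⊗ₜ[ℂ] (phi (c j) w) := by
  simp [opPhi, LinearMap.sum_apply]

theorem sS_tmul (a : C) (w : E) : (sS (a ⊗ₜ[ℂ] w) : C ⊗[ℂ] E) = a ⊗ₜ[ℂ] (sE w) := by
  simp [sS]

/-- Leibniz for `opPsi` with derivations. -/
theorem opPsi_mul (h : Ext1Stmt) (f : Fin 5 → (C →ₗ[ℂ] C)) (c : Fin 5 → Ix)
    (hf : ∀ j a b, f j (a * b) = f j a * b + a * f j b) (a b : C ⊗[ℂ] E) :
    opPsi f c (a * b) = opPsi f c a * b + sS a * opPsi f c b := by
  induction a using TensorProduct.induction_on with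
  | zero => simp
  | add x y hx hy => rw [add_mul, map_add, hx, hy, map_add, map_add, add_mul, add_mul]; abel
  | tmul f1 w1 =>
    induction b using TensorProduct.induction_on with
    | zero => simp
    | add x y hx hy => rw [mul_add, map_add, hx, hy, map_add, mul_add, mul_add]; abel
    | tmul f2 w2 =>
      rw [Algebra.TensorProduct.tmul_mul_tmul, opPsi_tmul, opPsi_tmul, opPsi_tmul, sS_tmul,
        Finset.sum_mul, Finset.mul_sum, ← Finset.sum_add_distrib]
      refine Finset.sum_congr rfl fun j _ => ?_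
      rw [Algebra.TensorProduct.tmul_mul_tmul, Algebra.TensorProduct.tmul_mul_tmul, hf,
        TensorProduct.add_tmul]
      have e1 : psi (c j) w1 * w2 = psi (c j) (w1 * w2) := by
        simp [psi, mul_assoc]
      have e2 : sE w1 * psi (c j) w2 = psi (c j) (w1 * w2) := by
        simp only [psi, LinearMap.mulLeft_apply]
        rw [← mul_assoc, ← h.gen_mul, mul_assoc]
      rw [e1, e2]

/-- Leibniz for `opPhi` with multiplications. -/
theorem opPhi_mul (h : Ext1Stmt) (m : Fin 5 → C) (c : Fin 5 → Ix) (a b : C ⊗[ℂ] E) :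
    opPhi (fun j => LinearMap.mulLeft ℂ (m j)) c (a * b)
      = opPhi (fun j => LinearMap.mulLeft ℂ (m j)) c a * b
        + sS a * opPhi (fun j => LinearMap.mulLeft ℂ (m j)) c b := by
  induction a using TensorProduct.induction_on with
  | zero => simp
  | add x y hx hy => rw [add_mul, map_add, hx, hy, map_add, map_add, add_mul, add_mul]; abel
  | tmul f1 w1 =>
    induction b using TensorProduct.induction_on with
    | zero => simp
    | add x y hx hy => rw [mul_add, map_add, hx, hy, map_add, mul_add, mul_add]; abel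
    | tmul f2 w2 =>
      rw [Algebra.TensorProduct.tmul_mul_tmul, opPhi_tmul, opPhi_tmul, opPhi_tmul, sS_tmul,
        Finset.sum_mul, Finset.mul_sum, ← Finset.sum_add_distrib]
      refine Finset.sum_congr rfl fun j _ => ?_
      rw [Algebra.TensorProduct.tmul_mul_tmul, Algebra.TensorProduct.tmul_mul_tmul, h.phi_mul,
        TensorProduct.tmul_add]
      simp only [LinearMap.mulLeft_apply]
      rw [mul_assoc, mul_left_comm]

theorem sS_opPsi (h : Ext1Stmt) (f : Fin 5 → (C →ₗ[ℂ] C)) (c : Fin 5 → Ix) (a : C ⊗[ℂ] E) :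
    sS (opPsi f c a) = -opPsi f c (sS a) := by
  induction a using TensorProduct.induction_on with
  | zero => simp
  | add x y hx hy => rw [map_add, map_add, hx, hy, map_add, map_add]; abel
  | tmul f1 w1 =>
    rw [opPsi_tmul, map_sum, sS_tmul, opPsi_tmul, ← Finset.sum_neg_distrib]
    refine Finset.sum_congr rfl fun j _ => ?_
    rw [sS_tmul, h.sE_psi, TensorProduct.tmul_neg]

theorem sS_opPhi (h : Ext1Stmt) (f : Fin 5 → (C →ₗ[ℂ] C)) (c : Fin 5 → Ix) (a : C ⊗[ℂ] E) :
    sS (opPhi f c a) = -opPhi f c (sS a) := by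
  induction a using TensorProduct.induction_on with
  | zero => simp
  | add x y hx hy => rw [map_add, map_add, hx, hy, map_add, map_add]; abel
  | tmul f1 w1 =>
    rw [opPhi_tmul, map_sum, sS_tmul, opPhi_tmul, ← Finset.sum_neg_distrib]
    refine Finset.sum_congr rfl fun j _ => ?_
    rw [sS_tmul, h.sE_phi, TensorProduct.tmul_neg]

theorem sum_antisymm {M : Type*} [AddCommGroup M] [Module ℂ M] (F : Fin 5 → Fin 5 → M)
    (hF : ∀ i j, F i j = -F j i) : ∑ i : Fin 5, ∑ j : Fin 5, F i j = 0 := by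
  have h1 : ∑ i : Fin 5, ∑ j : Fin 5, F i j = -∑ i : Fin 5, ∑ j : Fin 5, F i j := by
    conv_lhs => rw [Finset.sum_comm]
    rw [← Finset.sum_neg_distrib]
    refine Finset.sum_congr rfl fun i _ => ?_
    rw [← Finset.sum_neg_distrib]
    exact Finset.sum_congr rfl fun j _ => hF _ _
  have h2 : (2 : ℂ) • ∑ i : Fin 5, ∑ j : Fin 5, F i j = 0 := by
    rw [two_smul]
    nth_rewrite 1 [h1]
    simp
  exact (smul_eq_zero.mp h2).resolve_left two_ne_zero

theorem opPsi_opPsi (h : Ext1Stmt) (f : Fin 5 → (C →ₗ[ℂ] C)) (c : Fin 5 → Ix)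
    (hf : ∀ i j a, f i (f j a) = f j (f i a)) (a : C ⊗[ℂ] E) :
    opPsi f c (opPsi f c a) = 0 := by
  induction a using TensorProduct.induction_on with
  | zero => simp
  | add x y hx hy => rw [map_add, map_add, hx, hy, add_zero]
  | tmul f1 w1 =>
    rw [opPsi_tmul, map_sum]
    simp only [opPsi_tmul]
    refine sum_antisymm _ fun i j => ?_
    rw [h.psi_psi, TensorProduct.tmul_neg, hf]

theorem opPhi_opPhi (h : Ext1Stmt) (f : Fin 5 → (C →ₗ[ℂ] C)) (c : Fin 5 → Ix)
    (hf : ∀ i j a, f i (f j a) = f j (f i a)) (a : C ⊗[ℂ] E) :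
    opPhi f c (opPhi f c a) = 0 := by
  induction a using TensorProduct.induction_on with
  | zero => simp
  | add x y hx hy => rw [map_add, map_add, hx, hy, add_zero]
  | tmul f1 w1 =>
    rw [opPhi_tmul, map_sum]
    simp only [opPhi_tmul]
    refine sum_antisymm _ fun i j => ?_
    rw [h.phi_phi, TensorProduct.tmul_neg, hf]

theorem opPsi_opPhi (h : Ext1Stmt) (f g : Fin 5 → (C →ₗ[ℂ] C)) (c c' : Fin 5 → Ix)
    (hfg : ∀ i j a, f i (g j a) = g j (f i a)) (hc : ∀ i j, c' i ≠ c j) (a : C ⊗[ℂ] E) :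
    opPsi f c (opPhi g c' a) = -opPhi g c' (opPsi f c a) := by
  induction a using TensorProduct.induction_on with
  | zero => simp
  | add x y hx hy => rw [map_add, map_add, hx, hy, map_add, map_add]; abel
  | tmul f1 w1 =>
    rw [opPsi_tmul, opPhi_tmul, map_sum, map_sum]
    simp only [opPsi_tmul, opPhi_tmul]
    rw [Finset.sum_comm, ← Finset.sum_neg_distrib]
    refine Finset.sum_congr rfl fun i _ => ?_
    rw [← Finset.sum_neg_distrib]
    refine Finset.sum_congr rfl fun j _ => ?_
    have h1 := h.phi_psi (c' j) (c i) w1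
    rw [if_neg (hc j i)] at h1
    have h2 : psi (c i) (phi (c' j) w1) = -phi (c' j) (psi (c i) w1) :=
      eq_neg_of_add_eq_zero_right h1
    rw [h2, TensorProduct.tmul_neg, hfg]

theorem even_part_comm (h : Ext1Stmt) (a b : C ⊗[ℂ] E) :
    (a + sS a) * b = b * (a + sS a) := by
  induction a using TensorProduct.induction_on with
  | zero => simp
  | add x y hx hy =>
    have e : x + y + sS (x + y) = (x + sS x) + (y + sS y) := by rw [map_add]; abel
    rw [e, add_mul, mul_add, hx, hy]
  | tmul f1 w1 =>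
    induction b using TensorProduct.induction_on with
    | zero => simp
    | add x y hx hy => rw [mul_add, hx, hy, add_mul x y]
    | tmul f2 w2 =>
      rw [sS_tmul, ← TensorProduct.tmul_add, Algebra.TensorProduct.tmul_mul_tmul,
        Algebra.TensorProduct.tmul_mul_tmul, mul_comm f1 f2]
      congr 1
      apply h.even_comm
      rw [map_add, h.sE_sE, add_comm]

theorem odd_part_comm (h : Ext1Stmt) (a b : C ⊗[ℂ] E) :
    (a - sS a) * (b - sS b) = -((b - sS b) * (a - sS a)) := by
  induction a using TensorProduct.induction_on with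
  | zero => simp
  | add x y hx hy =>
    have e : x + y - sS (x + y) = (x - sS x) + (y - sS y) := by rw [map_add]; abel
    rw [e, add_mul, mul_add, hx, hy]; abel
  | tmul f1 w1 =>
    induction b using TensorProduct.induction_on with
    | zero => simp
    | add x y hx hy =>
      have e : x + y - sS (x + y) = (x - sS x) + (y - sS y) := by rw [map_add]; abel
      rw [e, mul_add, add_mul, hx, hy]; abel
    | tmul f2 w2 =>
      rw [sS_tmul, sS_tmul, ← TensorProduct.tmul_sub, ← TensorProduct.tmul_sub,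
        Algebra.TensorProduct.tmul_mul_tmul,
        Algebra.TensorProduct.tmul_mul_tmul, mul_comm f1 f2, ← TensorProduct.tmul_neg]
      congr 1
      apply h.odd_comm
      · rw [map_sub, h.sE_sE, neg_sub]
      · rw [map_sub, h.sE_sE, neg_sub]

theorem comm_even_gen (h : Ext1Stmt) (a b : C ⊗[ℂ] E) (ha : sS a = a) : a * b = b * a := by
  have h1 := even_part_comm h a b
  rw [ha] at h1
  have h2 : (2 : ℂ) • (a * b - b * a) = 0 := by
    rw [two_smul]
    have : (a * b - b * a) + (a * b - b * a) = (a + a) * b - b * (a + a) := by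
      rw [add_mul, mul_add]; abel
    rw [this, h1, sub_self]
  exact sub_eq_zero.mp ((smul_eq_zero.mp h2).resolve_left two_ne_zero)

theorem comm_odd_gen (h : Ext1Stmt) (a b : C ⊗[ℂ] E) (ha : sS a = -a) (hb : sS b = -b) :
    a * b = -(b * a) := by
  have h1 := odd_part_comm h a b
  rw [ha, hb] at h1
  have h2 : (4 : ℂ) • (a * b + b * a) = 0 := by
    have e1 : (a - -a) * (b - -b) = (4 : ℂ) • (a * b) := by
      rw [sub_neg_eq_add, sub_neg_eq_add, ← two_smul ℂ a, ← two_smul ℂ b, smul_mul_smul_comm]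
      norm_num
    have e2 : (b - -b) * (a - -a) = (4 : ℂ) • (b * a) := by
      rw [sub_neg_eq_add, sub_neg_eq_add, ← two_smul ℂ a, ← two_smul ℂ b, smul_mul_smul_comm]
      norm_num
    rw [e1, e2] at h1
    rw [smul_add, h1, neg_add_cancel]
  have h3 := (smul_eq_zero.mp h2).resolve_left (by norm_num)
  exact eq_neg_of_add_eq_zero_left h3

end

/-- LSUP. -/
theorem lsup (h : Ext1Stmt) : LsupStmt where
  comm_even := fun a b ha => comm_even_gen h a b ha
  comm_odd := fun a b ha hb => comm_odd_gen h a b ha hb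
  d_mul := fun pd hpd a b => opPsi_mul h pd _ hpd.mul a b
  i_mul := fun a b => opPhi_mul h _ _ a b
  s_d := fun pd _ a => sS_opPsi h pd _ a
  s_i := fun a => sS_opPhi h _ _ a
  d_d := fun pd hpd a => opPsi_opPsi h pd _ hpd.comm a
  i_i := fun a => opPhi_opPhi h _ _ (fun i j a => by
    simp only [LinearMap.mulLeft_apply]; rw [mul_left_comm]) a
  d_i := fun pd hpd a => opPsi_opPhi h pd _ _ _ (fun i j a => by
    simp only [LinearMap.mulLeft_apply]
    rw [hpd.mul, hpd.alg]
    have : MvPolynomial.pderiv (Sum.inr i) (MvPolynomial.X (Sum.inl j) : R) = 0 := by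
      rw [MvPolynomial.pderiv_X_of_ne (by simp)]
    rw [this, map_zero, zero_mul, zero_add]) (fun i j => by simp) a

end Pool.Agent.SkewP4.H15
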